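import Pool.Agent.D0H49.Q4.Loc

/-!
Project Q4, module B1: the Selmer group of `y² = x³ + 2 Δ x` over `ℚ(i)` for `Δ` of determinant one.
-/

set_option autoImplicit false
set_option linter.unusedSectionVars false

open NumberField IsDedekindDomain

namespace Pool.Agent.D0H49.Q4

open Pool.Agent.Y682 (S1 S2 vv vv_coe IsT Zc Zc_card Zc_lower LL1 LL2 Sq quot_eq)
open Pool.Agent.Y699
open Pool.Agent.Y715.Z
open Pool.Agent.D0H10.Q4
open H385 (ZI RQ im1 nrm)
open Pool.Agent.W164.RC (two2 prim_iff_dvd unit_norm unit_cases)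
open Pool.Agent.H304R2.EC.A1 (prim prim_mul prim_cancel prim_one prim_norm_odd prim_star eq_one_of_prim
  norm_def' re_mul' im_mul' eq_of_dvd prim_ne_zero exists_prim)

section comb

variable {ι : Type} [DecidableEq ι] [Fintype ι] {pr : ι → ZI}

/-- the kernel is trivial -/
lemma ker_of_det {t : ι → ZMod 2} {A : ι → ι → ZMod 2} (hd : (MQ t A Finset.univ).det = 1)
    {z : ι → ZMod 2} (h : ∀ v, t v * z v + ∑ u, A u v * (z u + z v) = 0) : ∀ v, z v = 0 := by
  classical
  have h0 : (MQ t A Finset.univ).det ≠ 0 := by rw [hd]; exact one_ne_zero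
  have h1 : (MQ t A Finset.univ).mulVec (fun v => z v.1) = 0 := by
    funext v
    rw [Pi.zero_apply, ← h v.1]
    unfold MQ Matrix.mulVec dotProduct
    simp only [Matrix.of_apply]
    rw [← Finset.add_sum_erase _ _ (Finset.mem_univ v), if_pos rfl]
    have e1 : ∑ x ∈ Finset.univ.erase v, (if v = x then t v.1 + ∑ l ∈ Finset.univ.erase v.1, A l v.1
        else A x.1 v.1) * z x.1 = ∑ x ∈ Finset.univ.erase v.1, A x v.1 * z x := by
      refine Finset.sum_bij' (fun a _ => a.1) (fun a _ => ⟨a, Finset.mem_univ a⟩) ?_ ?_ ?_ ?_ ?_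
      · intro a ha
        rw [Finset.mem_erase] at ha ⊢
        exact ⟨fun h' => ha.1 (Subtype.ext h'), Finset.mem_univ _⟩
      · intro a ha
        rw [Finset.mem_erase] at ha ⊢
        refine ⟨fun h' => ha.1 ?_, Finset.mem_univ _⟩
        rw [← h']
      · intro a _; rfl
      · intro a _; rfl
      · intro a ha
        rw [Finset.mem_erase] at ha
        rw [if_neg (fun h' => ha.1 h'.symm)]
    rw [e1, ← Finset.add_sum_erase Finset.univ (fun u => A u v.1 * (z u + z v.1)) (Finset.mem_univ v.1)]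
    have e2 : ∀ a : ZMod 2, a + a = 0 := by decide
    rw [e2, mul_zero, zero_add, add_mul, Finset.sum_mul, add_assoc, ← Finset.sum_add_distrib]
    congr 1
    refine Finset.sum_congr rfl fun x _ => ?_
    ring
  have h2 := Matrix.eq_zero_of_mulVec_eq_zero h0 h1
  intro v
  exact congrFun h2 ⟨v, Finset.mem_univ v⟩

lemma qr_two_sg (hp : PF pr) (j : ι) : qr (pr j) 2 = sg (wt pr j) := by
  have hP := hp.pp j
  have h1 : ¬ pr j ∣ pi1 := by
    intro h
    refine not_dvd_two hP ?_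
    exact h.trans pi1_two
  rw [two_eq_pi, qr_mul hP, qr_sq' hP h1, one_mul, qr_unit_sg hp j (by decide)]
  congr 1
  unfold ue
  rw [if_neg (by decide), one_mul]

/-- the combinatorial end of the descent -/
theorem endq (hp : PF pr) (hd : dq pr Finset.univ = 1) {u : ZI} {S : Finset ι} (hu : u.norm = 1)
    (hloc0 : ∀ j, (j ∉ S → qr (pr j) u * qr (pr j) (DD pr S) = 1) ∧
      (j ∈ S → qr (pr j) u * (qr (pr j) 2 * qr (pr j) (DD pr Sᶜ)) = 1)) :
    (ue u = 0 ∧ S = ∅) ∨ (ue u = 1 ∧ S = Finset.univ) := by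
  classical
  set z : ι → ZMod 2 := fun i => (if i ∈ S then 1 else 0) + ue u with hz
  have e2 : ∀ a : ZMod 2, a + a = 0 := by decide
  have hz0 : ∀ i ∉ S, z i = ue u := fun i hi => by rw [hz]; simp only [if_neg hi, zero_add]
  have hz1 : ∀ i ∈ S, z i = 1 + ue u := fun i hi => by rw [hz]; simp only [if_pos hi]
  have hloc : ∀ v, wt pr v * z v + ∑ i, em pr i v * (z i + z v) = 0 := by
    intro v
    obtain ⟨h1, h2⟩ := hloc0 v
    by_cases hvS : v ∈ S
    · have h3 := h2 hvS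
      rw [qr_unit_sg hp v hu, qr_DD_sg hp Sᶜ (fun h => (Finset.mem_compl.1 h) hvS), qr_two_sg hp,
        ← sg_add, ← sg_add] at h3
      have h4 := sg_eq_one h3
      rw [hz1 v hvS, ← h4, ← Finset.sum_add_sum_compl S]
      have h5 : ∑ i ∈ S, em pr i v * (z i + (1 + ue u)) = 0 :=
        Finset.sum_eq_zero fun i hi => by rw [hz1 i hi, e2, mul_zero]
      have h6 : ∑ i ∈ Sᶜ, em pr i v * (z i + (1 + ue u)) = ∑ i ∈ Sᶜ, em pr i v :=
        Finset.sum_congr rfl fun i hi => by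
          rw [hz0 i (Finset.mem_compl.1 hi)]
          have : ∀ a : ZMod 2, a + (1 + a) = 1 := by decide
          rw [this, mul_one]
      rw [h5, h6]
      ring
    · have h3 := h1 hvS
      rw [qr_unit_sg hp v hu, qr_DD_sg hp S hvS, ← sg_add] at h3
      have h4 := sg_eq_one h3
      rw [hz0 v hvS, ← h4, ← Finset.sum_add_sum_compl S]
      have h5 : ∑ i ∈ Sᶜ, em pr i v * (z i + ue u) = 0 :=
        Finset.sum_eq_zero fun i hi => by rw [hz0 i (Finset.mem_compl.1 hi), e2, mul_zero]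
      have h6 : ∑ i ∈ S, em pr i v * (z i + ue u) = ∑ i ∈ S, em pr i v :=
        Finset.sum_congr rfl fun i hi => by
          rw [hz1 i hi]
          have : ∀ a : ZMod 2, 1 + a + a = 1 := by decide
          rw [this, mul_one]
      rw [h5, h6]
      ring
  have hk := ker_of_det (t := wt pr) (A := em pr) (z := z) hd hloc
  have hcase : ∀ a : ZMod 2, a = 0 ∨ a = 1 := by decide
  rcases hcase (ue u) with h | h
  · left
    refine ⟨h, Finset.eq_empty_of_forall_notMem fun i hi => ?_⟩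
    have h1 := hk i
    rw [hz1 i hi, h] at h1
    exact absurd h1 (by decide)
  · right
    refine ⟨h, Finset.eq_univ_iff_forall.2 fun i => ?_⟩
    by_contra hi
    have h1 := hk i
    rw [hz0 i hi, h] at h1
    exact absurd h1 (by decide)

end comb

section

variable {K : Type} [Field K] [NumberField K] (e : ZI ≃+* 𝓞 K)

/-- **the Selmer group** -/
theorem sel {Δ : ZI} (hg : PS Δ) (hdt : dD Δ = 1) {b : K} (hb : b ≠ 0)
    (h : ∀ v : HeightOneSpectrum (𝓞 K), ∃ y m : v.adicCompletion K, y ≠ 0 ∧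
      algebraMap K (v.adicCompletion K) b * y ^ 2 = m ∧
        S1 0 (algebraMap K (v.adicCompletion K) (em0 e (2 * Δ))) m) :
    ∃ c : K, b = c ^ 2 ∨ b = em0 e (2 * Δ) * c ^ 2 := by
  classical
  obtain ⟨d, w, hd, hw, hbd⟩ := exists_sqf e hb
  have hD0 := hg.ne
  have hp := fam_PF hD0
  have hpi : ¬ pi1 ∣ d := not_pi1 e hg.prm hd hw hbd (h (plc e pi1_prime))
  -- the primes of `d`
  have hprime : ∀ ρ : ZI, Prime ρ → ρ ∣ d → ρ ∣ Δ := by
    intro ρ hρ hρd
    by_contra hρD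
    have h1 : ¬ ρ ∣ 2 * Δ := by
      intro h2
      rcases hρ.dvd_or_dvd h2 with h3 | h3
      · rw [two_eq_pi] at h3
        rcases hρ.dvd_or_dvd h3 with h4 | h4
        · have h5 := hρ.dvd_of_dvd_pow h4
          have h6 := (hρ.dvd_prime_iff_associated pi1_prime).1 h5
          exact hpi (h6.symm.dvd.trans hρd)
        · refine hρ.not_isUnit (isUnit_of_dvd_unit h4 ?_)
          exact ⟨⟨⟨0, -1⟩, ⟨0, 1⟩, by decide, by decide⟩, rfl⟩
      · exact hρD h3
    exact not_dvd_of_loc e hρ h1 hd hw hbd (h (plc e hρ)) hρd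
  set S := Finset.univ.filter (fun i => fam Δ i ∣ d) with hS
  have hDV : DD (fam Δ) Finset.univ = Δ := hg.DD
  have hSd : DD (fam Δ) S ∣ d := by
    unfold DD
    refine Finset.prod_dvd_of_coprime ?_ ?_
    · intro i _ j _ hij
      exact (hp.pp i).cop (hp.pp j) fun h => hij (hp.inj h)
    · intro i hi
      exact (Finset.mem_filter.1 hi).2
  obtain ⟨u, hu⟩ := hSd
  have huu : IsUnit u := by
    by_contra hnu
    have hu0 : u ≠ 0 := by
      rintro rfl
      exact hd.ne_zero (by rw [hu, mul_zero])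
    obtain ⟨ρ, hρ, hρu⟩ := WfDvdMonoid.exists_irreducible_factor hnu hu0
    have hρ' : Prime ρ := irreducible_iff_prime.1 hρ
    have h1 : ρ ∣ d := by rw [hu]; exact hρu.mul_left _
    have h2 := hprime ρ hρ' h1
    rw [← hDV] at h2
    unfold DD at h2
    obtain ⟨i, hi, hρi⟩ := (hρ'.dvd_finsetProd_iff _).1 h2
    have h3 : fam Δ i ∣ ρ := by
      obtain ⟨c, hc⟩ := hρi
      rcases (hp.pp i).pr.irreducible.isUnit_or_isUnit hc with h4 | h4
      · exact absurd h4 hρ'.not_isUnit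
      · obtain ⟨c', hc'⟩ := h4.exists_right_inv
        exact ⟨c', by rw [hc, mul_assoc, hc', mul_one]⟩
    have h4 : i ∈ S := Finset.mem_filter.2 ⟨hi, h3.trans h1⟩
    have h5 : fam Δ i * fam Δ i ∣ d := by
      rw [hu]
      refine mul_dvd_mul ?_ (h3.trans hρu)
      unfold DD
      exact Finset.dvd_prod_of_mem _ h4
    exact (hp.pp i).pr.not_isUnit (hd _ h5)
  have hun : u.norm = 1 := by
    obtain ⟨e', rfl⟩ := huu
    exact unit_norm e'
  have hDS : Δ = DD (fam Δ) S * DD (fam Δ) Sᶜ := by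
    conv_lhs => rw [← hDV]
    unfold DD
    exact (Finset.prod_mul_prod_compl _ _).symm
  have hnd : ∀ (T : Finset {π : ZI // π ∈ PD Δ}) (j : {π : ZI // π ∈ PD Δ}), j ∉ T →
      ¬ fam Δ j ∣ DD (fam Δ) T := by
    intro T j hT h
    unfold DD at h
    obtain ⟨i, hi, hji⟩ := ((hp.pp j).pr.dvd_finsetProd_iff _).1 h
    exact not_dvd_of_ne hp (fun h' => hT (by rw [h']; exact hi)) hji
  -- the local conditions
  have hloc : ∀ j, (j ∉ S → qr (fam Δ j) u * qr (fam Δ j) (DD (fam Δ) S) = 1) ∧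
      (j ∈ S → qr (fam Δ j) u * (qr (fam Δ j) 2 * qr (fam Δ j) (DD (fam Δ) Sᶜ)) = 1) := by
    intro j
    have hP := hp.pp j
    have hjD : fam Δ j ∣ Δ := (Finset.dvd_prod_of_mem (fam Δ) (Finset.mem_univ j)).trans (dvd_of_eq hDV)
    have h2 := not_dvd_two hP
    have hval : (plc e hP.pr).valuation K (em0 e (2 * Δ)) = WithZero.exp (-1 : ℤ) := by
      rw [map_mul, map_mul, val_one e hP.pr h2, one_mul, val_sqf e hP.pr hg.sqf hjD]
    have h20 : (2 * Δ : ZI) ≠ 0 := mul_ne_zero (by decide) hD0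
    obtain ⟨h1, h3⟩ := loc_bad' (d := d) (d' := u * (2 * DD (fam Δ) Sᶜ)) (D' := u) e hP.pr hP
      h2 h20 hval hw hbd (h (plc e hP.pr))
    constructor
    · intro hjS
      have h4 := h1 (fun h' => hjS (Finset.mem_filter.2 ⟨Finset.mem_univ _, h'⟩))
      rw [hu, qr_mul hP] at h4
      rw [mul_comm]
      exact h4
    · intro hjS
      have h4 := h3 hd (Finset.mem_filter.1 hjS).2 (by
        have h6 : d * (u * (2 * DD (fam Δ) Sᶜ)) =
            (2 * (DD (fam Δ) S * DD (fam Δ) Sᶜ)) * u ^ 2 := by rw [hu]; ring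
        exact h6.trans (congrArg (fun t => (2 * t) * u ^ 2) hDS.symm)) (by
        intro h'
        rcases hP.pr.dvd_or_dvd h' with h4 | h4
        · exact not_dvd_unit hP hun h4
        · rcases hP.pr.dvd_or_dvd h4 with h5 | h5
          · exact h2 h5
          · exact hnd _ _ (fun h6 => (Finset.mem_compl.1 h6) hjS) h5)
      rw [qr_mul hP, qr_mul hP] at h4
      exact h4
  rcases endq hp hdt hun hloc with ⟨h1, h2⟩ | ⟨h1, h2⟩
  · obtain ⟨u0, hu0⟩ : ∃ u0 : ZI, u = u0 ^ 2 := by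
      rcases unit_cases hun with h | h | h | h
      · exact ⟨1, by rw [h]; ring⟩
      · exfalso
        rw [h] at h1
        revert h1
        unfold ue
        rw [if_neg (by decide)]
        decide
      · exact ⟨im1, h⟩
      · exfalso
        rw [h] at h1
        revert h1
        unfold ue
        rw [if_neg (by decide)]
        decide
    refine ⟨em0 e u0 * w, Or.inl ?_⟩
    have h3 : DD (fam Δ) S = 1 := by rw [h2]; unfold DD; rw [Finset.prod_empty]
    rw [hbd, hu, h3, one_mul, hu0, map_pow]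
    ring
  · obtain ⟨u0, hu0⟩ : ∃ u0 : ZI, u * pi1 ^ 2 = 2 * u0 ^ 2 := by
      rcases unit_cases hun with h | h | h | h
      · exfalso
        rw [h] at h1
        revert h1
        unfold ue
        rw [if_pos (by decide)]
        decide
      · exact ⟨im1, by rw [h]; decide⟩
      · exfalso
        rw [h] at h1
        revert h1
        unfold ue
        rw [if_pos (by decide)]
        decide
      · exact ⟨1, by rw [h]; decide⟩
    have hl0 : em0 e pi1 ≠ 0 := em0_ne e pi1_prime.ne_zero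
    refine ⟨em0 e u0 / em0 e pi1 * w, Or.inr ?_⟩
    have h3 := congrArg (em0 e) hu0
    rw [map_mul, map_mul, map_pow, map_pow] at h3
    rw [hbd, hu, h2, hDV, map_mul, map_mul, mul_pow, div_pow]
    field_simp
    linear_combination (em0 e Δ) * h3

/-- there is at most one element of Sha killed by two -/
theorem sha_two {Δ : ZI} (hg : PS Δ) (hdt : dD Δ = 1) {W : WeierstrassCurve K}
    (hT : IsT W 0 (em0 e (2 * Δ)))
    (x : Pool.Agent.TH841.NF.D.Sha W) (hx : 2 • x = 0) : x = 0 := by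
  classical
  have h20 : (2 * Δ : ZI) ≠ 0 := mul_ne_zero (by decide) hg.ne
  have hD0 : em0 e (2 * Δ) ≠ 0 := em0_ne e h20
  let U : Set (Kˣ ⧸ Sq K) := {(1 : Kˣ ⧸ Sq K), ((Units.mk0 (em0 e (2 * Δ)) hD0 : Kˣ) : Kˣ ⧸ Sq K)}
  have hUf : U.Finite := Set.toFinite U
  have hfin : Finite U := hUf.to_subtype
  have hU2 : Nat.card U ≤ 2 := by
    have h1 : U.ncard ≤ 2 := by
      refine (Set.ncard_insert_le _ _).trans ?_
      rw [Set.ncard_singleton]
    exact h1
  have key : ∀ b : Kˣ, (∃ c : K, (b : K) = c ^ 2 ∨ (b : K) = em0 e (2 * Δ) * c ^ 2) →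
      (b : Kˣ ⧸ Sq K) ∈ U := by
    rintro b ⟨c, hc⟩
    have hc0 : c ≠ 0 := by
      rintro rfl
      rcases hc with hc | hc
      · rw [zero_pow two_ne_zero] at hc; exact b.ne_zero hc
      · rw [zero_pow two_ne_zero, mul_zero] at hc; exact b.ne_zero hc
    rcases hc with hc | hc
    · left
      have h1 : (1 : Kˣ ⧸ Sq K) = ((1 : Kˣ) : Kˣ ⧸ Sq K) := rfl
      rw [h1, eq_comm, quot_eq]
      refine ⟨Units.mk0 c hc0, Units.ext ?_⟩
      rw [Units.val_mul, Units.val_one, one_mul, Units.val_pow_eq_pow_val, Units.val_mk0, hc]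
    · right
      show (b : Kˣ ⧸ Sq K) = ((Units.mk0 (em0 e (2 * Δ)) hD0 : Kˣ) : Kˣ ⧸ Sq K)
      rw [eq_comm, quot_eq]
      refine ⟨Units.mk0 c hc0, Units.ext ?_⟩
      rw [Units.val_mul, Units.val_pow_eq_pow_val, Units.val_mk0, Units.val_mk0, hc]
  have H1 : ∀ b : Kˣ, LL1 (0 : K) (em0 e (2 * Δ)) (b : K) → (b : Kˣ ⧸ Sq K) ∈ U := by
    intro b hb
    apply key
    apply sel e hg hdt b.ne_zero
    intro v
    have := hb.1 v
    rwa [map_zero] at this
  have H2 : ∀ b : Kˣ, LL2 (0 : K) (em0 e (2 * Δ)) (b : K) → (b : Kˣ ⧸ Sq K) ∈ U := by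
    intro b hb
    apply key
    apply sel e hg hdt b.ne_zero
    intro v
    have := Pool.Agent.Y682.charZero_adic v
    have h1 := hb.1 v
    rw [map_zero] at h1
    refine S2_S1 (i := algebraMap K (v.adicCompletion K) (em0 e im1)) ?_ h1
    rw [← map_pow, Pool.Agent.Y715.Z.im1_sq, map_neg, map_one]
  obtain ⟨hf, hc⟩ := Zc_card hT (U := U) (V := U) (Or.inl rfl) H1 H2
  obtain ⟨h3, h4⟩ := Zc_lower hT
  have h5 : Nat.card {x : Pool.Agent.TH841.NF.D.Sha W // 2 • x = 0} ≤ 1 := by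
    have h6 : Nat.card (Zc W) ≤ 4 := hc.trans (by nlinarith)
    have h7 : 1 ≤ 2 ^ (Module.finrank ℤ (Pool.Agent.Y682.MP W)) := Nat.one_le_two_pow
    have h8 := h4.trans h6
    nlinarith
  have h6 : Subsingleton {x : Pool.Agent.TH841.NF.D.Sha W // 2 • x = 0} :=
    Finite.card_le_one_iff_subsingleton.1 h5
  have h7 := @Subsingleton.elim _ h6 ⟨x, hx⟩ ⟨0, smul_zero _⟩
  exact congrArg Subtype.val h7

/-- the 2-primary part of Sha is trivial -/
theorem sha_pow {Δ : ZI} (hg : PS Δ) (hdt : dD Δ = 1) {W : WeierstrassCurve K}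
    (hT : IsT W 0 (em0 e (2 * Δ)))
    (n : ℕ) (x : Pool.Agent.TH841.NF.D.Sha W) (hx : 2 ^ n • x = 0) : x = 0 := by
  induction n with
  | zero => rwa [pow_zero, one_smul] at hx
  | succ n ih =>
    apply ih
    apply sha_two e hg hdt hT
    rw [smul_smul, mul_comm, ← pow_succ]
    exact hx

/-- the class of the abscissa of a point -/
lemma cls {Δ : ZI} (hg : PS Δ) (hdt : dD Δ = 1) {x y : K} (hx : x ≠ 0)
    (hxy : y ^ 2 = x ^ 3 + em0 e (2 * Δ) * x) :
    ∃ c : K, x = c ^ 2 ∨ x = em0 e (2 * Δ) * c ^ 2 := by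
  apply sel e hg hdt hx
  intro v
  refine ⟨1, algebraMap K (v.adicCompletion K) x, one_ne_zero, by rw [one_pow, mul_one],
    Or.inr (Or.inr ⟨(map_ne_zero _).2 hx, algebraMap K (v.adicCompletion K) y, ?_⟩)⟩
  have h1 := congrArg (algebraMap K (v.adicCompletion K)) hxy
  rw [map_pow, map_add, map_mul, map_pow] at h1
  rw [h1]
  ring

/-- there are no points outside the two-torsion -/
theorem no_pts {Δ : ZI} (hg : PS Δ) (hdt : dD Δ = 1) {x y : K}
    (hxy : y ^ 2 = x ^ 3 + em0 e (2 * Δ) * x) : y = 0 := by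
  set D : K := em0 e (2 * Δ) with hD
  set l : K := em0 e pi1 with hl
  set j : K := em0 e im1 with hj
  have h20 : (2 * Δ : ZI) ≠ 0 := mul_ne_zero (by decide) hg.ne
  have hD0 : D ≠ 0 := em0_ne e h20
  have hl0 : l ≠ 0 := em0_ne e pi1_prime.ne_zero
  have hjj : j ^ 2 = -1 := Pool.Agent.Y715.Z.im1_sq e
  have hj0 : j ≠ 0 := em0_ne e (by decide)
  have hll : l ^ 2 = 2 * j := by
    rw [hl, hj, ← map_pow]
    have : (pi1 ^ 2 : ZI) = 2 * im1 := by decide
    rw [this, map_mul, map_ofNat]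
  set W := (plc e pi1_prime).valuation K with hW
  have hlv : W l = WithZero.exp (-1 : ℤ) := val_z e pi1_prime
  have hDv : W D = WithZero.exp (-2 : ℤ) := by
    have h1 : W (em0 e ⟨0, -1⟩) = 1 := val_one e _ (by rw [odd_iff]; decide)
    have h2 : W (em0 e Δ) = 1 := val_one e _ (pi1_prim hg.prm)
    rw [hD, two_eq_pi, map_mul, map_mul, map_mul, map_mul, map_pow, map_pow, hlv, h1, h2, mul_one,
      mul_one, ← WithZero.exp_nsmul]
    congr 1
  set X : Set K := {x | ∃ y : K, y ≠ 0 ∧ y ^ 2 = x ^ 3 + D * x} with hX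
  have hx0 : ∀ x ∈ X, x ≠ 0 := by
    rintro x ⟨y, hy, hxy⟩ rfl
    apply hy
    have : y ^ 2 = 0 := by rw [hxy]; ring
    exact pow_eq_zero_iff (by norm_num) |>.1 this
  -- the valuation of the abscissa is even
  have hev : ∀ x ∈ X, ∃ n : ℤ, W x = WithZero.exp (2 * n) := by
    rintro x hx
    obtain ⟨y, hy, hxy⟩ := id hx
    obtain ⟨c, hc⟩ := cls e hg hdt (hx0 x hx) hxy
    have hc0 : c ≠ 0 := by
      rintro rfl
      apply hx0 x hx
      rcases hc with hc | hc
      · rw [hc]; ring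
      · rw [hc]; ring
    obtain ⟨r, hr⟩ := exists_exp W hc0
    rcases hc with hc | hc
    · refine ⟨r, ?_⟩
      rw [hc, map_pow, hr, ← WithZero.exp_nsmul]
      congr 1
    · refine ⟨r - 1, ?_⟩
      rw [hc, map_mul, map_pow, hr]
      change W D * _ = _
      rw [hDv, ← WithZero.exp_nsmul, ← WithZero.exp_add]
      congr 1
      simp
      omega
  -- halving when the abscissa is a square
  have hhalf : ∀ x ∈ X, ∀ w : K, x = w ^ 2 → ∃ x' ∈ X, x'^ 2 + D = l ^ 2 * x' * x := by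
    rintro x hx w hxw
    have n0 := hx0 x hx
    obtain ⟨y, hy, hxy⟩ := hx
    have hw0 : w ≠ 0 := by
      rintro rfl
      apply n0
      rw [hxw]; ring
    set b : K := y / w with hb
    have hb2 : b ^ 2 = x ^ 2 + D := by
      rw [hb, div_pow, hxy, ← hxw]
      field_simp
    have hprod : (w ^ 2 + b) * (w ^ 2 - b) = -D := by
      rw [← hxw]
      linear_combination -hb2
    have hs0 : w ^ 2 + b ≠ 0 := by
      intro h
      rw [h, zero_mul] at hprod
      exact hD0 (neg_eq_zero.1 hprod.symm)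
    set x' : K := j * (w ^ 2 + b) with hx'
    have hx'0 : x' ≠ 0 := mul_ne_zero hj0 hs0
    have key : x' ^ 2 + D = l ^ 2 * x' * x := by
      rw [hx', hll, hxw]
      have hb2' : b ^ 2 = w ^ 4 + D := by rw [hb2, hxw]; ring
      linear_combination (w ^ 4 + 2 * w ^ 2 * b + b ^ 2 - 2 * w ^ 2 * (w ^ 2 + b)) * hjj - hb2'
    refine ⟨x', ⟨l * w * x', mul_ne_zero (mul_ne_zero hl0 hw0) hx'0, ?_⟩, key⟩
    have e : x' ^ 3 + D * x' = x' * (x' ^ 2 + D) := by ring
    rw [e, key, hxw]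
    ring
  -- the valuations
  have hval : ∀ n n' : ℤ, ∀ x ∈ X, ∀ x' ∈ X, x' ^ 2 + D = l ^ 2 * x' * x →
      W x = WithZero.exp (2 * n) → W x' = WithZero.exp (2 * n') →
      |2 * n + 1| = |2 * n' + 1| + 2 ∧ 0 < n := by
    intro n n' x hx x' hx' h hn hn'
    have e1 : W (l ^ 2 * x' * x) = WithZero.exp (-2 + 2 * n' + 2 * n) := by
      rw [map_mul, map_mul, map_pow, hlv, hn, hn', ← WithZero.exp_nsmul, ← WithZero.exp_add,
        ← WithZero.exp_add]
      congr 1
    have e2 : W (x' ^ 2) = WithZero.exp (4 * n') := by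
      rw [map_pow, hn', ← WithZero.exp_nsmul]
      congr 1
      simp
      ring
    rcases lt_or_ge n' 0 with h1 | h1
    · have h2 : W (x' ^ 2 + D) = WithZero.exp (-2 : ℤ) := by
        rw [Valuation.map_add_eq_of_lt_right, hDv]
        rw [e2, hDv, WithZero.exp_lt_exp]
        omega
      rw [h, e1] at h2
      have h3 := WithZero.exp_injective h2
      have h4 : n = -n' := by omega
      subst h4
      refine ⟨?_, by omega⟩
      rw [abs_of_pos (by omega), abs_of_neg (by omega)]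
      ring
    · have h2 : W (x' ^ 2 + D) = WithZero.exp (4 * n') := by
        rw [Valuation.map_add_eq_of_lt_left, e2]
        rw [e2, hDv, WithZero.exp_lt_exp]
        omega
      rw [h, e1] at h2
      have h3 := WithZero.exp_injective h2
      have h4 : n = n' + 1 := by omega
      subst h4
      refine ⟨?_, by omega⟩
      rw [abs_of_pos (by omega), abs_of_pos (by omega)]
      ring
  have hstep : ∀ n : ℤ, ∀ x ∈ X, W x = WithZero.exp (2 * n) → ∃ x' ∈ X, ∃ n' : ℤ,
      W x' = WithZero.exp (2 * n') ∧ |2 * n + 1| = |2 * n' + 1| + 2 := by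
    intro n x hx hn
    have n0 := hx0 x hx
    obtain ⟨y, hy, hxy⟩ := id hx
    obtain ⟨w, hw1 | hw1⟩ := cls e hg hdt n0 hxy
    · obtain ⟨x', hx', h1⟩ := hhalf x hx w hw1
      obtain ⟨n', hn'⟩ := hev x' hx'
      exact ⟨x', hx', n', hn', (hval n n' x hx x' hx' h1 hn hn').1⟩
    · change x = D * w ^ 2 at hw1
      have hw0 : w ≠ 0 := by
        rintro rfl
        apply n0
        rw [hw1]; ring
      have hτ : D / x ∈ X := by
        refine ⟨D * y / x ^ 2, div_ne_zero (mul_ne_zero hD0 hy) (pow_ne_zero 2 n0), ?_⟩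
        rw [div_pow, mul_pow, hxy]
        field_simp
        ring
      have hτsq : D / x = (1 / w) ^ 2 := by
        rw [hw1]
        field_simp
      obtain ⟨x', hx', h1⟩ := hhalf _ hτ _ hτsq
      obtain ⟨n', hn'⟩ := hev x' hx'
      have hτv : W (D / x) = WithZero.exp (2 * (-1 - n)) := by
        rw [map_div₀, hDv, hn, ← WithZero.exp_sub]
        congr 1
        ring
      have h2 := (hval (-1 - n) n' _ hτ x' hx' h1 hτv hn').1
      refine ⟨x', hx', n', hn', ?_⟩
      rw [← h2]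
      have : 2 * (-1 - n) + 1 = -(2 * n + 1) := by ring
      rw [this, abs_neg]
  have hno : ∀ k : ℕ, ∀ n : ℤ, ∀ x ∈ X, W x = WithZero.exp (2 * n) → |2 * n + 1| = k → False := by
    intro k
    induction k using Nat.strong_induction_on with
    | _ k ih =>
      intro n x hx hn hk
      obtain ⟨x', hx', n', hn', h1⟩ := hstep n x hx hn
      have := abs_nonneg (2 * n' + 1)
      refine ih (k - 2) (by omega) n' x' hx' hn' (by omega)
  by_contra hy
  have hxX : x ∈ X := ⟨y, hy, hxy⟩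
  obtain ⟨n, hn⟩ := hev x hxX
  exact hno (2 * n + 1).natAbs n x hxX hn (by rw [Int.abs_eq_natAbs])

/-- `-2 Δ` is not a square -/
lemma neg_not_sq {Δ : ZI} (hg : PS Δ) (r : K) : r ^ 2 ≠ -(em0 e (2 * Δ)) := by
  intro hr
  have hint : IsIntegral (𝓞 K) r := by
    refine IsIntegral.of_pow (n := 2) (by norm_num) ?_
    rw [hr, em0_apply, ← map_neg]
    exact isIntegral_algebraMap
  obtain ⟨a', ha'⟩ := IsIntegrallyClosed.isIntegral_iff.1 hint
  obtain ⟨a, rfl⟩ := e.surjective a'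
  have h1 : a * a = -(2 * Δ) := by
    apply em0_inj e
    rw [map_mul, map_neg, ← hr, ← ha', em0_apply, sq]
  obtain ⟨hi, hre⟩ := hg.prm
  have h2 := congrArg Zsqrtd.re h1
  have h3 := congrArg Zsqrtd.im h1
  obtain ⟨p, q⟩ := a
  obtain ⟨s, t⟩ := Δ
  have e1 : (2 : ZI).re = 2 := rfl
  have e2 : (2 : ZI).im = 0 := rfl
  simp only [Zsqrtd.re_neg, Zsqrtd.im_neg, re_mul', im_mul', e1, e2] at h2 h3 hi hre
  -- `p² - q² = -2 s`, `s` odd
  rcases Int.emod_two_eq_zero_or_one p with hp | hp <;> rcases Int.emod_two_eq_zero_or_one q with hq | hq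
  · obtain ⟨P, rfl⟩ : ∃ P, p = 2 * P := ⟨p / 2, by omega⟩
    obtain ⟨Q, rfl⟩ : ∃ Q, q = 2 * Q := ⟨q / 2, by omega⟩
    have h4 : 4 * (P * P - Q * Q) = -2 * s := by linear_combination h2
    omega
  · obtain ⟨P, rfl⟩ : ∃ P, p = 2 * P := ⟨p / 2, by omega⟩
    obtain ⟨Q, rfl⟩ : ∃ Q, q = 2 * Q + 1 := ⟨q / 2, by omega⟩
    have h4 : 4 * (P * P - Q * Q - Q) - 1 = -2 * s := by linear_combination h2
    omega
  · obtain ⟨P, rfl⟩ : ∃ P, p = 2 * P + 1 := ⟨p / 2, by omega⟩
    obtain ⟨Q, rfl⟩ : ∃ Q, q = 2 * Q := ⟨q / 2, by omega⟩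
    have h4 : 4 * (P * P + P - Q * Q) + 1 = -2 * s := by linear_combination h2
    omega
  · obtain ⟨P, rfl⟩ : ∃ P, p = 2 * P + 1 := ⟨p / 2, by omega⟩
    obtain ⟨Q, rfl⟩ : ∃ Q, q = 2 * Q + 1 := ⟨q / 2, by omega⟩
    have h4 : 4 * (P * P + P - Q * Q - Q) = -2 * s := by linear_combination h2
    omega

end

/-- **module B1** -/
theorem ksel : S_KSEL := by
  intro K _ _ e Δ hg hdt
  have h20 : (2 * Δ : ZI) ≠ 0 := mul_ne_zero (by decide) hg.ne
  refine ⟨?_, fun n x hx => sha_pow e hg hdt ?_ n x hx⟩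
  · exact card_pts4 (K := K) (D := em0 e (2 * Δ)) (neg_not_sq e hg) two_ne_zero
      (fun x y h => no_pts e hg hdt h)
  · refine ⟨rfl, rfl, rfl, rfl, rfl, em0_ne e h20, ?_⟩
    rw [zero_pow two_ne_zero, zero_sub, neg_ne_zero]
    exact mul_ne_zero (by norm_num) (em0_ne e h20)

end Pool.Agent.D0H49.Q4
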