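import Pool.Agent.D0H49.Q4.Sel
import Pool.Agent.D0H43.Q4.Stm2

/-!
Project Q4, module D1.8: the Selmer group of `y² = x³ + i ^ σ Δ x` over `ℚ(i)` for `σ` odd and `Δ` of
determinant one.
-/

set_option autoImplicit false
set_option linter.unusedSectionVars false

open NumberField IsDedekindDomain

namespace Pool.Agent.D0H49.Q4

open Pool.Agent.Y682 (S1 S2 vv vv_coe IsT Zc Zc_card Zc_lower LL1 LL2 Sq quot_eq)
open Pool.Agent.Y699
open Pool.Agent.Y715.Z
open Pool.Agent.D0H10.Q4
open Pool.Agent.D0H43.Q4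
open H385 (ZI RQ im1 nrm)
open Pool.Agent.W164.RC (two2 prim_iff_dvd unit_norm unit_cases)
open Pool.Agent.H304R2.EC.A1 (prim prim_mul prim_cancel prim_one prim_norm_odd prim_star eq_one_of_prim
  norm_def' re_mul' im_mul' eq_of_dvd prim_ne_zero exists_prim)

lemma im1_odd {σ : ℕ} (h : σ % 2 = 1) : im1 ^ σ = im1 ∨ im1 ^ σ = -im1 := by
  obtain ⟨k, hk⟩ : ∃ k, σ = 2 * k + 1 := ⟨σ / 2, by omega⟩
  have h1 : (im1 ^ 2 : ZI) = -1 := by decide
  rw [hk, pow_succ, pow_mul, h1]
  rcases Nat.even_or_odd k with h2 | h2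
  · left; rw [h2.neg_one_pow, one_mul]
  · right; rw [h2.neg_one_pow, neg_one_mul]

section

variable {K : Type} [Field K] [NumberField K] (e : ZI ≃+* 𝓞 K) {κ : ZI}

/-- **the Selmer group** -/
theorem sel1 (hκ : κ = im1 ∨ κ = -im1) {Δ : ZI} (hg : PS Δ) (hdt : dD Δ = 1) {b : K} (hb : b ≠ 0)
    (h : ∀ v : HeightOneSpectrum (𝓞 K), ∃ y m : v.adicCompletion K, y ≠ 0 ∧
      algebraMap K (v.adicCompletion K) b * y ^ 2 = m ∧
        S1 0 (algebraMap K (v.adicCompletion K) (em0 e (κ * Δ))) m) :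
    ∃ c : K, b = c ^ 2 ∨ b = em0 e (κ * Δ) * c ^ 2 := by
  classical
  obtain ⟨d, w, hd, hw, hbd⟩ := exists_sqf e hb
  have hD0 := hg.ne
  have hp := fam_PF hD0
  have hκn : κ.norm = 1 := by rcases hκ with rfl | rfl <;> decide
  have hκu : IsUnit κ := Zsqrtd.norm_eq_one_iff.1 (by rw [hκn]; rfl)
  -- the primes of `d`
  have hprime : ∀ ρ : ZI, Prime ρ → ρ ∣ d → ρ ∣ Δ := by
    intro ρ hρ hρd
    by_contra hρD
    have h1 : ¬ ρ ∣ κ * Δ := by
      intro h2
      rcases hρ.dvd_or_dvd h2 with h3 | h3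
      · exact hρ.not_isUnit (isUnit_of_dvd_unit h3 hκu)
      · exact hρD h3
    exact not_dvd_of_loc e hρ h1 hd hw hbd (h (plc e hρ)) hρd
  set S := Finset.univ.filter (fun i => fam Δ i ∣ d) with hS
  have hDV : DD (fam Δ) Finset.univ = Δ := hg.DD
  have hSd : DD (fam Δ) S ∣ d := by
    unfold DD
    refine Finset.prod_dvd_of_coprime ?_ ?_
    · intro i _ j _ hij
      exact (hp.pp i).cop (hp.pp j) fun h => hij (hp.inj h)
    · intro i hi
      exact (Finset.mem_filter.1 hi).2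
  obtain ⟨u, hu⟩ := hSd
  have huu : IsUnit u := by
    by_contra hnu
    have hu0 : u ≠ 0 := by
      rintro rfl
      exact hd.ne_zero (by rw [hu, mul_zero])
    obtain ⟨ρ, hρ, hρu⟩ := WfDvdMonoid.exists_irreducible_factor hnu hu0
    have hρ' : Prime ρ := irreducible_iff_prime.1 hρ
    have h1 : ρ ∣ d := by rw [hu]; exact hρu.mul_left _
    have h2 := hprime ρ hρ' h1
    rw [← hDV] at h2
    unfold DD at h2
    obtain ⟨i, hi, hρi⟩ := (hρ'.dvd_finsetProd_iff _).1 h2
    have h3 : fam Δ i ∣ ρ := by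
      obtain ⟨c, hc⟩ := hρi
      rcases (hp.pp i).pr.irreducible.isUnit_or_isUnit hc with h4 | h4
      · exact absurd h4 hρ'.not_isUnit
      · obtain ⟨c', hc'⟩ := h4.exists_right_inv
        exact ⟨c', by rw [hc, mul_assoc, hc', mul_one]⟩
    have h4 : i ∈ S := Finset.mem_filter.2 ⟨hi, h3.trans h1⟩
    have h5 : fam Δ i * fam Δ i ∣ d := by
      rw [hu]
      refine mul_dvd_mul ?_ (h3.trans hρu)
      unfold DD
      exact Finset.dvd_prod_of_mem _ h4
    exact (hp.pp i).pr.not_isUnit (hd _ h5)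
  have hun : u.norm = 1 := by
    obtain ⟨e', rfl⟩ := huu
    exact unit_norm e'
  have hDS : Δ = DD (fam Δ) S * DD (fam Δ) Sᶜ := by
    conv_lhs => rw [← hDV]
    unfold DD
    exact (Finset.prod_mul_prod_compl _ _).symm
  have hnd : ∀ (T : Finset {π : ZI // π ∈ PD Δ}) (j : {π : ZI // π ∈ PD Δ}), j ∉ T →
      ¬ fam Δ j ∣ DD (fam Δ) T := by
    intro T j hT h
    unfold DD at h
    obtain ⟨i, hi, hji⟩ := ((hp.pp j).pr.dvd_finsetProd_iff _).1 h
    exact not_dvd_of_ne hp (fun h' => hT (by rw [h']; exact hi)) hji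
  -- the local conditions
  have hloc : ∀ j, (j ∉ S → qr (fam Δ j) u * qr (fam Δ j) (DD (fam Δ) S) = 1) ∧
      (j ∈ S → qr (fam Δ j) u * (qr (fam Δ j) 2 * qr (fam Δ j) (DD (fam Δ) Sᶜ)) = 1) := by
    intro j
    have hP := hp.pp j
    have hjD : fam Δ j ∣ Δ := (Finset.dvd_prod_of_mem (fam Δ) (Finset.mem_univ j)).trans (dvd_of_eq hDV)
    have h2 := not_dvd_two hP
    have hq : qr (fam Δ j) 2 = qr (fam Δ j) κ := by
      rw [qr_two_sg hp, qr_unit_sg hp j hκn]
      congr 1
      unfold ue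
      rw [if_neg (by rcases hκ with rfl | rfl <;> decide), one_mul]
    have hval : (plc e hP.pr).valuation K (em0 e (κ * Δ)) = WithZero.exp (-1 : ℤ) := by
      rw [map_mul, map_mul, val_one e hP.pr (not_dvd_unit hP hκn), one_mul,
        val_sqf e hP.pr hg.sqf hjD]
    have h20 : (κ * Δ : ZI) ≠ 0 := mul_ne_zero hκu.ne_zero hD0
    obtain ⟨h1, h3⟩ := loc_bad' (d := d) (d' := u * (κ * DD (fam Δ) Sᶜ)) (D' := u) e hP.pr hP
      h2 h20 hval hw hbd (h (plc e hP.pr))
    constructor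
    · intro hjS
      have h4 := h1 (fun h' => hjS (Finset.mem_filter.2 ⟨Finset.mem_univ _, h'⟩))
      rw [hu, qr_mul hP] at h4
      rw [mul_comm]
      exact h4
    · intro hjS
      have h4 := h3 hd (Finset.mem_filter.1 hjS).2 (by
        have h6 : d * (u * (κ * DD (fam Δ) Sᶜ)) =
            (κ * (DD (fam Δ) S * DD (fam Δ) Sᶜ)) * u ^ 2 := by rw [hu]; ring
        exact h6.trans (congrArg (fun t => (κ * t) * u ^ 2) hDS.symm)) (by
        intro h'
        rcases hP.pr.dvd_or_dvd h' with h4 | h4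
        · exact not_dvd_unit hP hun h4
        · rcases hP.pr.dvd_or_dvd h4 with h5 | h5
          · exact not_dvd_unit hP hκn h5
          · exact hnd _ _ (fun h6 => (Finset.mem_compl.1 h6) hjS) h5)
      rw [qr_mul hP, qr_mul hP] at h4
      rw [hq]
      exact h4
  rcases endq hp hdt hun hloc with ⟨h1, h2⟩ | ⟨h1, h2⟩
  · obtain ⟨u0, hu0⟩ : ∃ u0 : ZI, u = u0 ^ 2 := by
      rcases unit_cases hun with h | h | h | h
      · exact ⟨1, by rw [h]; ring⟩
      · exfalso
        rw [h] at h1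
        revert h1
        unfold ue
        rw [if_neg (by decide)]
        decide
      · exact ⟨im1, h⟩
      · exfalso
        rw [h] at h1
        revert h1
        unfold ue
        rw [if_neg (by decide)]
        decide
    refine ⟨em0 e u0 * w, Or.inl ?_⟩
    have h3 : DD (fam Δ) S = 1 := by rw [h2]; unfold DD; rw [Finset.prod_empty]
    rw [hbd, hu, h3, one_mul, hu0, map_pow]
    ring
  · obtain ⟨u0, hu0⟩ : ∃ u0 : ZI, u = κ * u0 ^ 2 := by
      rcases unit_cases hun with h | h | h | h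
      · exfalso
        rw [h] at h1
        revert h1
        unfold ue
        rw [if_pos (by decide)]
        decide
      · rcases hκ with hk | hk
        · exact ⟨1, by rw [h, hk]; decide⟩
        · exact ⟨im1, by rw [h, hk]; decide⟩
      · exfalso
        rw [h] at h1
        revert h1
        unfold ue
        rw [if_pos (by decide)]
        decide
      · rcases hκ with hk | hk
        · exact ⟨im1, by rw [h, hk]; decide⟩
        · exact ⟨1, by rw [h, hk]; decide⟩
    refine ⟨em0 e u0 * w, Or.inr ?_⟩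
    rw [hbd, hu, h2, hDV, hu0]
    simp only [map_mul, map_pow]
    ring

/-- there is at most one element of Sha killed by two -/
theorem sha_two1 (hκ : κ = im1 ∨ κ = -im1) {Δ : ZI} (hg : PS Δ) (hdt : dD Δ = 1)
    {W : WeierstrassCurve K} (hT : IsT W 0 (em0 e (κ * Δ)))
    (x : Pool.Agent.TH841.NF.D.Sha W) (hx : 2 • x = 0) : x = 0 := by
  classical
  have hκn : κ.norm = 1 := by rcases hκ with rfl | rfl <;> decide
  have hκu : IsUnit κ := Zsqrtd.norm_eq_one_iff.1 (by rw [hκn]; rfl)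
  have h20 : (κ * Δ : ZI) ≠ 0 := mul_ne_zero hκu.ne_zero hg.ne
  have hD0 : em0 e (κ * Δ) ≠ 0 := em0_ne e h20
  let U : Set (Kˣ ⧸ Sq K) := {(1 : Kˣ ⧸ Sq K), ((Units.mk0 (em0 e (κ * Δ)) hD0 : Kˣ) : Kˣ ⧸ Sq K)}
  have hUf : U.Finite := Set.toFinite U
  have hfin : Finite U := hUf.to_subtype
  have hU2 : Nat.card U ≤ 2 := by
    have h1 : U.ncard ≤ 2 := by
      refine (Set.ncard_insert_le _ _).trans ?_
      rw [Set.ncard_singleton]
    exact h1
  have key : ∀ b : Kˣ, (∃ c : K, (b : K) = c ^ 2 ∨ (b : K) = em0 e (κ * Δ) * c ^ 2) →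
      (b : Kˣ ⧸ Sq K) ∈ U := by
    rintro b ⟨c, hc⟩
    have hc0 : c ≠ 0 := by
      rintro rfl
      rcases hc with hc | hc
      · rw [zero_pow two_ne_zero] at hc; exact b.ne_zero hc
      · rw [zero_pow two_ne_zero, mul_zero] at hc; exact b.ne_zero hc
    rcases hc with hc | hc
    · left
      have h1 : (1 : Kˣ ⧸ Sq K) = ((1 : Kˣ) : Kˣ ⧸ Sq K) := rfl
      rw [h1, eq_comm, quot_eq]
      refine ⟨Units.mk0 c hc0, Units.ext ?_⟩
      rw [Units.val_mul, Units.val_one, one_mul, Units.val_pow_eq_pow_val, Units.val_mk0, hc]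
    · right
      show (b : Kˣ ⧸ Sq K) = ((Units.mk0 (em0 e (κ * Δ)) hD0 : Kˣ) : Kˣ ⧸ Sq K)
      rw [eq_comm, quot_eq]
      refine ⟨Units.mk0 c hc0, Units.ext ?_⟩
      rw [Units.val_mul, Units.val_pow_eq_pow_val, Units.val_mk0, Units.val_mk0, hc]
  have H1 : ∀ b : Kˣ, LL1 (0 : K) (em0 e (κ * Δ)) (b : K) → (b : Kˣ ⧸ Sq K) ∈ U := by
    intro b hb
    apply key
    apply sel1 e hκ hg hdt b.ne_zero
    intro v
    have := hb.1 v
    rwa [map_zero] at this
  have H2 : ∀ b : Kˣ, LL2 (0 : K) (em0 e (κ * Δ)) (b : K) → (b : Kˣ ⧸ Sq K) ∈ U := by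
    intro b hb
    apply key
    apply sel1 e hκ hg hdt b.ne_zero
    intro v
    have := Pool.Agent.Y682.charZero_adic v
    have h1 := hb.1 v
    rw [map_zero] at h1
    refine S2_S1 (i := algebraMap K (v.adicCompletion K) (em0 e im1)) ?_ h1
    rw [← map_pow, Pool.Agent.Y715.Z.im1_sq, map_neg, map_one]
  obtain ⟨hf, hc⟩ := Zc_card hT (U := U) (V := U) (Or.inl rfl) H1 H2
  obtain ⟨h3, h4⟩ := Zc_lower hT
  have h5 : Nat.card {x : Pool.Agent.TH841.NF.D.Sha W // 2 • x = 0} ≤ 1 := by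
    have h6 : Nat.card (Zc W) ≤ 4 := hc.trans (by nlinarith)
    have h7 : 1 ≤ 2 ^ (Module.finrank ℤ (Pool.Agent.Y682.MP W)) := Nat.one_le_two_pow
    have h8 := h4.trans h6
    nlinarith
  have h6 : Subsingleton {x : Pool.Agent.TH841.NF.D.Sha W // 2 • x = 0} :=
    Finite.card_le_one_iff_subsingleton.1 h5
  have h7 := @Subsingleton.elim _ h6 ⟨x, hx⟩ ⟨0, smul_zero _⟩
  exact congrArg Subtype.val h7

/-- the 2-primary part of Sha is trivial -/
theorem sha_pow1 (hκ : κ = im1 ∨ κ = -im1) {Δ : ZI} (hg : PS Δ) (hdt : dD Δ = 1)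
    {W : WeierstrassCurve K} (hT : IsT W 0 (em0 e (κ * Δ)))
    (n : ℕ) (x : Pool.Agent.TH841.NF.D.Sha W) (hx : 2 ^ n • x = 0) : x = 0 := by
  induction n with
  | zero => rwa [pow_zero, one_smul] at hx
  | succ n ih =>
    apply ih
    apply sha_two1 e hκ hg hdt hT
    rw [smul_smul, mul_comm, ← pow_succ]
    exact hx

/-- the class of the abscissa of a point -/
lemma cls1' (hκ : κ = im1 ∨ κ = -im1) {Δ : ZI} (hg : PS Δ) (hdt : dD Δ = 1) {x y : K} (hx : x ≠ 0)
    (hxy : y ^ 2 = x ^ 3 + em0 e (κ * Δ) * x) :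
    ∃ c : K, x = c ^ 2 ∨ x = em0 e (κ * Δ) * c ^ 2 := by
  apply sel1 e hκ hg hdt hx
  intro v
  refine ⟨1, algebraMap K (v.adicCompletion K) x, one_ne_zero, by rw [one_pow, mul_one],
    Or.inr (Or.inr ⟨(map_ne_zero _).2 hx, algebraMap K (v.adicCompletion K) y, ?_⟩)⟩
  have h1 := congrArg (algebraMap K (v.adicCompletion K)) hxy
  rw [map_pow, map_add, map_mul, map_pow] at h1
  rw [h1]
  ring

/-- units at `1 + i` are one modulo `1 + i` -/
lemma unit_sub_one {x : K} (hx : (plc e pi1_prime).valuation K x = 1) :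
    (plc e pi1_prime).valuation K (x - 1) < 1 := by
  obtain ⟨c', hc'⟩ := HeightOneSpectrum.exists_valuation_sub_lt_of_integer (plc e pi1_prime) hx.le 1
  obtain ⟨c, rfl⟩ := e.surjective c'
  change (plc e pi1_prime).valuation K (em0 e c - x) < 1 at hc'
  have hodd : ¬ pi1 ∣ c := by
    intro h
    have h1 := (val_lt e pi1_prime c).2 h
    have h2 : (plc e pi1_prime).valuation K x < 1 := by
      have : x = em0 e c - (em0 e c - x) := by ring
      rw [this]
      exact (Valuation.map_sub _ _ _).trans_lt (max_lt h1 hc')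
    rw [hx] at h2
    exact lt_irrefl _ h2
  have h1 : pi1 ∣ c - 1 := by
    by_contra h2
    rw [odd_iff] at hodd h2
    simp only [Zsqrtd.re_sub, Zsqrtd.im_sub, Zsqrtd.re_one, Zsqrtd.im_one] at h2
    omega
  have h2 : (plc e pi1_prime).valuation K (em0 e (c - 1)) < 1 := (val_lt e pi1_prime _).2 h1
  have h3 : x - 1 = em0 e (c - 1) - (em0 e c - x) := by
    rw [map_sub, map_one]; ring
  rw [h3]
  exact (Valuation.map_sub _ _ _).trans_lt (max_lt h2 hc')

/-- there are no points outside the two-torsion -/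
theorem no_pts1 (hκ : κ = im1 ∨ κ = -im1) {Δ : ZI} (hg : PS Δ) (hdt : dD Δ = 1) {x y : K}
    (hxy : y ^ 2 = x ^ 3 + em0 e (κ * Δ) * x) : y = 0 := by
  have hκn : κ.norm = 1 := by rcases hκ with rfl | rfl <;> decide
  have hκu : IsUnit κ := Zsqrtd.norm_eq_one_iff.1 (by rw [hκn]; rfl)
  set D : K := em0 e (κ * Δ) with hD
  set l : K := em0 e pi1 with hl
  set j : K := em0 e im1 with hj
  have h20 : (κ * Δ : ZI) ≠ 0 := mul_ne_zero hκu.ne_zero hg.ne
  have hD0 : D ≠ 0 := em0_ne e h20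
  have hl0 : l ≠ 0 := em0_ne e pi1_prime.ne_zero
  have hjj : j ^ 2 = -1 := Pool.Agent.Y715.Z.im1_sq e
  have hj0 : j ≠ 0 := em0_ne e (by decide)
  have hll : l ^ 2 = 2 * j := by
    rw [hl, hj, ← map_pow]
    have : (pi1 ^ 2 : ZI) = 2 * im1 := by decide
    rw [this, map_mul, map_ofNat]
  set W := (plc e pi1_prime).valuation K with hW
  have hlv : W l = WithZero.exp (-1 : ℤ) := val_z e pi1_prime
  have hDo : ¬ pi1 ∣ κ * Δ := by
    intro h
    rcases pi1_prime.dvd_or_dvd h with h1 | h1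
    · exact pi1_prime.not_isUnit (isUnit_of_dvd_unit h1 hκu)
    · exact pi1_prim hg.prm h1
  have hDv : W D = 1 := val_one e _ hDo
  -- `1 + D` has valuation one
  have h1D : W (1 + D) = WithZero.exp (-1 : ℤ) := by
    obtain ⟨c, hc, hco⟩ : ∃ c : ZI, 1 + κ * Δ = pi1 * c ∧ ¬ pi1 ∣ c := by
      obtain ⟨hi, hre⟩ := hg.prm
      obtain ⟨r, t⟩ := Δ
      simp only at hi hre
      obtain ⟨T, rfl⟩ : ∃ T, t = 2 * T := ⟨t / 2, by omega⟩
      obtain ⟨R, rfl⟩ : ∃ R, r = 1 - 2 * T + 4 * R := ⟨(r - 1 + 2 * T) / 4, by omega⟩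
      rcases hκ with rfl | rfl
      · refine ⟨⟨1 - 2 * T + 2 * R, 2 * R⟩, ?_, ?_⟩
        · ext
          · simp [im1, pi1]; ring
          · simp [im1, pi1]; ring
        · rw [odd_iff]
          simp only
          omega
      · refine ⟨⟨2 * T - 2 * R, -1 - 2 * R⟩, ?_, ?_⟩
        · ext
          · simp [im1, pi1]; ring
          · simp [im1, pi1]; ring
        · rw [odd_iff]
          simp only
          omega
    have h2 : (1 : K) + D = em0 e (pi1 * c) := by rw [← hc, map_add, map_one]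
    rw [h2, map_mul, map_mul, hlv, val_one e _ hco, mul_one]
  set X : Set K := {x | ∃ y : K, y ≠ 0 ∧ y ^ 2 = x ^ 3 + D * x} with hX
  have hx0 : ∀ x ∈ X, x ≠ 0 := by
    rintro x ⟨y, hy, hxy⟩ rfl
    apply hy
    have : y ^ 2 = 0 := by rw [hxy]; ring
    exact pow_eq_zero_iff (by norm_num) |>.1 this
  -- the valuation of the abscissa is even
  have hev : ∀ x ∈ X, ∃ n : ℤ, W x = WithZero.exp (2 * n) := by
    rintro x hx
    obtain ⟨y, hy, hxy⟩ := id hx
    obtain ⟨c, hc⟩ := cls1' e hκ hg hdt (hx0 x hx) hxy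
    have hc0 : c ≠ 0 := by
      rintro rfl
      apply hx0 x hx
      rcases hc with hc | hc
      · rw [hc]; ring
      · rw [hc]; ring
    obtain ⟨r, hr⟩ := exists_exp W hc0
    refine ⟨r, ?_⟩
    rcases hc with hc | hc
    · rw [hc, map_pow, hr, ← WithZero.exp_nsmul]
      congr 1
    · rw [hc, map_mul, map_pow, hr]
      change W D * _ = _
      rw [hDv, ← WithZero.exp_nsmul, one_mul]
      congr 1
  -- halving when the abscissa is a square
  have hhalf : ∀ x ∈ X, ∀ w : K, x = w ^ 2 → ∃ x' ∈ X, x'^ 2 + D = l ^ 2 * x' * x := by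
    rintro x hx w hxw
    have n0 := hx0 x hx
    obtain ⟨y, hy, hxy⟩ := hx
    have hw0 : w ≠ 0 := by
      rintro rfl
      apply n0
      rw [hxw]; ring
    set b : K := y / w with hb
    have hb2 : b ^ 2 = x ^ 2 + D := by
      rw [hb, div_pow, hxy, ← hxw]
      field_simp
    have hprod : (w ^ 2 + b) * (w ^ 2 - b) = -D := by
      rw [← hxw]
      linear_combination -hb2
    have hs0 : w ^ 2 + b ≠ 0 := by
      intro h
      rw [h, zero_mul] at hprod
      exact hD0 (neg_eq_zero.1 hprod.symm)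
    set x' : K := j * (w ^ 2 + b) with hx'
    have hx'0 : x' ≠ 0 := mul_ne_zero hj0 hs0
    have key : x' ^ 2 + D = l ^ 2 * x' * x := by
      rw [hx', hll, hxw]
      have hb2' : b ^ 2 = w ^ 4 + D := by rw [hb2, hxw]; ring
      linear_combination (w ^ 4 + 2 * w ^ 2 * b + b ^ 2 - 2 * w ^ 2 * (w ^ 2 + b)) * hjj - hb2'
    refine ⟨x', ⟨l * w * x', mul_ne_zero (mul_ne_zero hl0 hw0) hx'0, ?_⟩, key⟩
    have e : x' ^ 3 + D * x' = x' * (x' ^ 2 + D) := by ring
    rw [e, key, hxw]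
    ring
  -- the valuations
  have hval : ∀ n n' : ℤ, ∀ x ∈ X, ∀ x' ∈ X, x' ^ 2 + D = l ^ 2 * x' * x →
      W x = WithZero.exp (2 * n) → W x' = WithZero.exp (2 * n') →
      |n| = |n'| + 1 := by
    intro n n' x hx x' hx' h hn hn'
    have e1 : W (l ^ 2 * x' * x) = WithZero.exp (-2 + 2 * n' + 2 * n) := by
      rw [map_mul, map_mul, map_pow, hlv, hn, hn', ← WithZero.exp_nsmul, ← WithZero.exp_add,
        ← WithZero.exp_add]
      congr 1
    have e2 : W (x' ^ 2) = WithZero.exp (4 * n') := by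
      rw [map_pow, hn', ← WithZero.exp_nsmul]
      congr 1
      simp
      ring
    rcases lt_trichotomy n' 0 with h1 | h1 | h1
    · have h2 : W (x' ^ 2 + D) = WithZero.exp (0 : ℤ) := by
        rw [Valuation.map_add_eq_of_lt_right, hDv, WithZero.exp_zero]
        rw [e2, hDv, ← WithZero.exp_zero, WithZero.exp_lt_exp]
        omega
      rw [h, e1] at h2
      have h3 := WithZero.exp_injective h2
      have h4 : n = 1 - n' := by omega
      subst h4
      rw [abs_of_pos (by omega), abs_of_neg h1]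
      ring
    · subst h1
      exfalso
      have hu : W x' = 1 := by rw [hn', mul_zero, WithZero.exp_zero]
      have h2 : W (x' - 1) < 1 := unit_sub_one e hu
      have h3 : W (x' ^ 2 - 1) < WithZero.exp (-1 : ℤ) := by
        have hle : W (x' - 1) ≤ WithZero.exp (-1 : ℤ) := by
          by_cases h0 : W (x' - 1) = 0
          · rw [h0]; exact zero_le
          · rw [← WithZero.exp_log h0] at h2 ⊢
            rw [← WithZero.exp_zero, WithZero.exp_lt_exp] at h2
            rw [WithZero.exp_le_exp]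
            omega
        have hlt : W (x' + 1) < 1 := by
          have h2l : W 2 < 1 := by
            have : (2 : K) = em0 e 2 := by rw [map_ofNat]
            rw [this]
            exact (val_lt e pi1_prime _).2 pi1_two
          have : x' + 1 = (x' - 1) + 2 := by ring
          rw [this]
          exact (Valuation.map_add _ _ _).trans_lt (max_lt h2 h2l)
        have h4 : x' ^ 2 - 1 = (x' - 1) * (x' + 1) := by ring
        rw [h4, map_mul]
        by_cases h0 : W (x' - 1) = 0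
        · rw [h0, zero_mul]; exact WithZero.exp_pos
        · calc W (x' - 1) * W (x' + 1) < W (x' - 1) * 1 :=
                mul_lt_mul_of_pos_left hlt (zero_lt_iff.2 h0)
            _ = W (x' - 1) := mul_one _
            _ ≤ _ := hle
      have h5 : W (x' ^ 2 + D) = WithZero.exp (-1 : ℤ) := by
        have : x' ^ 2 + D = (x' ^ 2 - 1) + (1 + D) := by ring
        rw [this, Valuation.map_add_eq_of_lt_right, h1D]
        rw [h1D]
        exact h3
      rw [h, e1] at h5
      have h6 := WithZero.exp_injective h5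
      omega
    · have h2 : W (x' ^ 2 + D) = WithZero.exp (4 * n') := by
        rw [Valuation.map_add_eq_of_lt_left, e2]
        rw [e2, hDv, ← WithZero.exp_zero, WithZero.exp_lt_exp]
        omega
      rw [h, e1] at h2
      have h3 := WithZero.exp_injective h2
      have h4 : n = n' + 1 := by omega
      subst h4
      rw [abs_of_pos (by omega), abs_of_pos h1]
  have hstep : ∀ n : ℤ, ∀ x ∈ X, W x = WithZero.exp (2 * n) → ∃ x' ∈ X, ∃ n' : ℤ,
      W x' = WithZero.exp (2 * n') ∧ |n| = |n'| + 1 := by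
    intro n x hx hn
    have n0 := hx0 x hx
    obtain ⟨y, hy, hxy⟩ := id hx
    obtain ⟨w, hw1 | hw1⟩ := cls1' e hκ hg hdt n0 hxy
    · obtain ⟨x', hx', h1⟩ := hhalf x hx w hw1
      obtain ⟨n', hn'⟩ := hev x' hx'
      exact ⟨x', hx', n', hn', hval n n' x hx x' hx' h1 hn hn'⟩
    · change x = D * w ^ 2 at hw1
      have hw0 : w ≠ 0 := by
        rintro rfl
        apply n0
        rw [hw1]; ring
      have hτ : D / x ∈ X := by
        refine ⟨D * y / x ^ 2, div_ne_zero (mul_ne_zero hD0 hy) (pow_ne_zero 2 n0), ?_⟩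
        rw [div_pow, mul_pow, hxy]
        field_simp
        ring
      have hτsq : D / x = (1 / w) ^ 2 := by
        rw [hw1]
        field_simp
      obtain ⟨x', hx', h1⟩ := hhalf _ hτ _ hτsq
      obtain ⟨n', hn'⟩ := hev x' hx'
      have hτv : W (D / x) = WithZero.exp (2 * (-n)) := by
        rw [map_div₀, hDv, hn, ← WithZero.exp_zero, ← WithZero.exp_sub]
        congr 1
        ring
      have h2 := hval (-n) n' _ hτ x' hx' h1 hτv hn'
      refine ⟨x', hx', n', hn', ?_⟩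
      rw [← h2, abs_neg]
  have hno : ∀ k : ℕ, ∀ n : ℤ, ∀ x ∈ X, W x = WithZero.exp (2 * n) → |n| = k → False := by
    intro k
    induction k using Nat.strong_induction_on with
    | _ k ih =>
      intro n x hx hn hk
      obtain ⟨x', hx', n', hn', h1⟩ := hstep n x hx hn
      have := abs_nonneg n'
      refine ih (k - 1) (by omega) n' x' hx' hn' (by omega)
  by_contra hy
  have hxX : x ∈ X := ⟨y, hy, hxy⟩
  obtain ⟨n, hn⟩ := hev x hxX
  exact hno n.natAbs n x hxX hn (by rw [Int.abs_eq_natAbs])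

/-- `- κ Δ` is not a square -/
lemma neg_not_sq1 (hκ : κ = im1 ∨ κ = -im1) {Δ : ZI} (hg : PS Δ) (r : K) :
    r ^ 2 ≠ -(em0 e (κ * Δ)) := by
  intro hr
  have hint : IsIntegral (𝓞 K) r := by
    refine IsIntegral.of_pow (n := 2) (by norm_num) ?_
    rw [hr, em0_apply, ← map_neg]
    exact isIntegral_algebraMap
  obtain ⟨a', ha'⟩ := IsIntegrallyClosed.isIntegral_iff.1 hint
  obtain ⟨a, rfl⟩ := e.surjective a'
  have h1 : a * a = -(κ * Δ) := by
    apply em0_inj e
    rw [map_mul, map_neg, ← hr, ← ha', em0_apply, sq]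
  obtain ⟨hi, hre⟩ := hg.prm
  have h3 := congrArg Zsqrtd.im h1
  obtain ⟨p, q⟩ := a
  obtain ⟨s, t⟩ := Δ
  simp only at hi hre
  rcases hκ with rfl | rfl
  · simp [im1] at h3
    have : p * q + q * p = 2 * (p * q) := by ring
    omega
  · simp [im1] at h3
    have : p * q + q * p = 2 * (p * q) := by ring
    omega

end

/-- **module D1.8** -/
theorem sel1_stm : S_SEL1 := by
  intro σ hσ K _ _ e Δ hg hdt
  have hκ := im1_odd hσ
  have hκn : (im1 ^ σ).norm = 1 := by rcases hκ with h | h <;> rw [h] <;> decide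
  have hκu : IsUnit (im1 ^ σ) := Zsqrtd.norm_eq_one_iff.1 (by rw [hκn]; rfl)
  have h20 : (im1 ^ σ * Δ : ZI) ≠ 0 := mul_ne_zero hκu.ne_zero hg.ne
  refine ⟨?_, fun n x hx => sha_pow1 e hκ hg hdt ?_ n x hx⟩
  · exact card_pts4 (K := K) (D := em0 e (im1 ^ σ * Δ)) (neg_not_sq1 e hκ hg) two_ne_zero
      (fun x y h => no_pts1 e hκ hg hdt h)
  · refine ⟨rfl, rfl, rfl, rfl, rfl, em0_ne e h20, ?_⟩
    rw [zero_pow two_ne_zero, zero_sub, neg_ne_zero]
    exact mul_ne_zero (by norm_num) (em0_ne e h20)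

end Pool.Agent.D0H49.Q4
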