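import Pool.Agent.D0H10.Q4.StmB

/-!
Project Q4, module B1: the local conditions for `y² = x³ + 2 Δ x` over `ℚ(i)`.
-/

set_option autoImplicit false
set_option linter.unusedSectionVars false

open NumberField IsDedekindDomain

namespace Pool.Agent.D0H49.Q4

open Pool.Agent.Y682 (S1 S2 vv vv_coe)
open Pool.Agent.Y699
open Pool.Agent.Y715.Z
open H385 (ZI RQ im1 nrm)
open Pool.Agent.W164.RC (two2 prim_iff_dvd unit_norm unit_cases)
open Pool.Agent.H304R2.EC.A1 (prim prim_mul prim_cancel prim_one prim_norm_odd prim_star eq_one_of_prim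
  norm_def' re_mul' im_mul' eq_of_dvd prim_ne_zero exists_prim)

section

variable {K : Type} [Field K] [NumberField K] (e : ZI ≃+* 𝓞 K) {z : ZI} (hz : Prime z)

/-- the local condition at a prime dividing `D` exactly once -/
lemma loc_bad' (hP : PP z) {D d d' D' : ZI} (h2 : ¬ z ∣ 2) (hD0 : D ≠ 0)
    (hDv : (plc e hz).valuation K (em0 e D) = WithZero.exp (-1 : ℤ))
    {b w : K} (hw : w ≠ 0) (hb : b = em0 e d * w ^ 2)
    (h : ∃ y m : (plc e hz).adicCompletion K, y ≠ 0 ∧ ph e hz b * y ^ 2 = m ∧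
      S1 0 (ph e hz (em0 e D)) m) :
    (¬ z ∣ d → qr z d = 1) ∧ (Squarefree d → z ∣ d → d * d' = D * D' ^ 2 → ¬ z ∣ d' → qr z d' = 1) := by
  obtain ⟨y, m, hy, hym, hm⟩ := h
  have h2' : (plc e hz).valuation K 2 = 1 := by
    have := val_one e hz h2
    rwa [map_ofNat] at this
  have hwD : vv (plc e hz) (ph e hz (em0 e D)) = WithZero.exp (-1 : ℤ) := by
    rw [vv_coe, hDv]
  have hlt : WithZero.exp (-1 : ℤ) < (1 : WithZero (Multiplicative ℤ)) := by
    rw [← WithZero.exp_zero, WithZero.exp_lt_exp]; norm_num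
  have hphD : ph e hz (em0 e D) ≠ 0 := (map_ne_zero _).2 (em0_ne e hD0)
  obtain ⟨c, hc, hmc⟩ := cls1 (vv (plc e hz)) (fun t ht => hens_odd (plc e hz) h2' t ht)
    hphD (by rw [hwD]; exact hlt) (fun x hx => by
      rw [hwD]
      by_cases hx0 : vv (plc e hz) x = 0
      · rw [hx0]; exact zero_le
      · rw [← WithZero.exp_log hx0] at hx ⊢
        rw [← WithZero.exp_zero, WithZero.exp_lt_exp] at hx
        rw [WithZero.exp_le_exp]
        omega) hm
  have hpw : ph e hz w ≠ 0 := (map_ne_zero _).2 hw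
  have hvy : vv (plc e hz) y ≠ 0 := (Valuation.ne_zero_iff _).2 hy
  have hvc : vv (plc e hz) c ≠ 0 := (Valuation.ne_zero_iff _).2 hc
  have hvw : vv (plc e hz) (ph e hz w) ≠ 0 := (Valuation.ne_zero_iff _).2 hpw
  have hm2 : ph e hz (em0 e d) * (ph e hz w * y) ^ 2 = m := by
    rw [← hym, hb, map_mul, map_pow]; ring
  constructor
  · intro hzd
    rcases hmc with h1 | h1
    · apply qr_of_sqrt e hz hP hzd (x := c / (ph e hz w * y))
      rw [div_pow, ← h1, ← hm2]
      field_simp
    · exfalso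
      have h3 := congrArg (vv (plc e hz)) (hm2.trans h1)
      rw [map_mul, map_mul, vv_coe, val_one e hz hzd, one_mul, map_pow, map_pow, map_mul, hwD] at h3
      apply exp_sq (g := vv (plc e hz) (ph e hz w) * vv (plc e hz) y / vv (plc e hz) c)
      rw [div_pow, h3]
      field_simp
  · intro hd hzd hdd hzd'
    rcases hmc with h1 | h1
    · exfalso
      have h3 := congrArg (vv (plc e hz)) (hm2.trans h1)
      rw [map_mul, vv_coe, val_sqf e hz hd hzd, map_pow, map_pow, map_mul] at h3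
      apply exp_sq (g := vv (plc e hz) c / (vv (plc e hz) (ph e hz w) * vv (plc e hz) y))
      rw [div_pow, ← h3]
      field_simp
    · have hpd : ph e hz (em0 e d) ≠ 0 := (map_ne_zero _).2 (em0_ne e hd.ne_zero)
      apply qr_of_sqrt e hz hP hzd'
        (x := ph e hz (em0 e D') * (ph e hz w * y) / c)
      have h4 : ph e hz (em0 e d) * ph e hz (em0 e d') =
          ph e hz (em0 e D) * ph e hz (em0 e D') ^ 2 := by
        rw [← map_mul, ← map_mul, hdd, map_mul, map_mul, map_pow, map_pow]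
      have h5 : ph e hz (em0 e d) * (ph e hz w * y) ^ 2 = ph e hz (em0 e D) * c ^ 2 := hm2.trans h1
      rw [div_pow, mul_pow]
      rw [div_eq_iff (pow_ne_zero 2 hc)]
      apply mul_left_cancel₀ (mul_ne_zero hphD hpd)
      linear_combination (ph e hz (em0 e D) * ph e hz (em0 e D') ^ 2) * h5 -
        (ph e hz (em0 e D) * c ^ 2) * h4

/-- approximation of integral elements of the completion -/
lemma approx (x : (plc e hz).adicCompletion K) (hx : vv (plc e hz) x ≤ 1) (N : ℕ) :
    ∃ a : ZI, vv (plc e hz) (ph e hz (em0 e a) - x) ≤ WithZero.exp (-(N : ℤ)) := by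
  have hg : WithZero.exp (-(N : ℤ)) ≠ 0 := WithZero.exp_ne_zero
  obtain ⟨k, hk⟩ := Pool.Agent.Y682.exists_approx (plc e hz) x _ hg
  have hle : WithZero.exp (-(N : ℤ)) ≤ 1 := by
    rw [← WithZero.exp_zero, WithZero.exp_le_exp]; omega
  have hwk : vv (plc e hz) (ph e hz k) ≤ 1 := by
    have : ph e hz k = (ph e hz k - x) + x := by ring
    rw [this]
    exact (Valuation.map_add _ _ _).trans (max_le (hk.le.trans hle) hx)
  have hwk' : (plc e hz).valuation K k ≤ 1 := by rwa [vv_coe] at hwk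
  obtain ⟨c', hc'⟩ := HeightOneSpectrum.exists_valuation_sub_lt_of_integer (plc e hz) hwk'
    (Units.mk0 _ hg)
  obtain ⟨c, rfl⟩ := e.surjective c'
  refine ⟨c, ?_⟩
  have h2 : ph e hz (em0 e c) - x = ph e hz (em0 e c - k) + (ph e hz k - x) := by
    rw [map_sub]; ring
  rw [h2]
  refine (Valuation.map_add _ _ _).trans (max_le ?_ hk.le)
  rw [vv_coe]
  exact hc'.le

/-- divisibility from the valuation -/
lemma dvd_of_val {a : ZI} {N : ℕ} (h : vv (plc e hz) (ph e hz (em0 e a)) ≤ WithZero.exp (-(N : ℤ))) :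
    z ^ N ∣ a := by
  rw [vv_coe, em0_apply, HeightOneSpectrum.valuation_of_algebraMap,
    HeightOneSpectrum.intValuation_le_pow_iff_mem] at h
  exact (mem_pow_iff e (v := plc e hz) rfl a N).1 h

end

lemma cast4 {A B C : ℤ} (h : A = B + 4 * C) : (A : ZMod 4) = (B : ZMod 4) := by
  have f4 : ((4 : ℤ) : ZMod 4) = 0 := by decide
  rw [h, Int.cast_add, Int.cast_mul, f4, zero_mul, add_zero]

/-- the congruence at `1 + i` -/
lemma no_two {d a s Δ k : ZI} (hd : (d.re + d.im) % 2 = 1) (ha : (a.re + a.im) % 2 = 1) (hΔ : prim Δ)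
    (h : pi1 * s ^ 2 = d * (d ^ 2 * a ^ 4 - im1 * Δ) + 4 * k) : False := by
  -- the fourth power
  obtain ⟨a4, ha4⟩ : ∃ y : ZI, a ^ 4 = 1 + 4 * y := by
    obtain ⟨p, q⟩ := a
    simp only at ha
    rcases Int.emod_two_eq_zero_or_one p with hp | hp
    · obtain ⟨P, rfl⟩ : ∃ P, p = 2 * P := ⟨p / 2, by omega⟩
      obtain ⟨Q, rfl⟩ : ∃ Q, q = 2 * Q + 1 := ⟨q / 2, by omega⟩
      refine ⟨⟨4 * P ^ 4 - 6 * P ^ 2 * (2 * Q + 1) ^ 2 + 4 * Q ^ 4 + 8 * Q ^ 3 + 6 * Q ^ 2 + 2 * Q,
        8 * P ^ 3 * (2 * Q + 1) - 2 * P * (2 * Q + 1) ^ 3⟩, ?_⟩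
      ext
      · simp [pow_succ]; ring
      · simp [pow_succ]; ring
    · obtain ⟨P, rfl⟩ : ∃ P, p = 2 * P + 1 := ⟨p / 2, by omega⟩
      obtain ⟨Q, rfl⟩ : ∃ Q, q = 2 * Q := ⟨q / 2, by omega⟩
      refine ⟨⟨4 * Q ^ 4 - 6 * Q ^ 2 * (2 * P + 1) ^ 2 + 4 * P ^ 4 + 8 * P ^ 3 + 6 * P ^ 2 + 2 * P,
        2 * Q * (2 * P + 1) ^ 3 - 8 * Q ^ 3 * (2 * P + 1)⟩, ?_⟩
      ext
      · simp [pow_succ]; ring
      · simp [pow_succ]; ring
  rw [ha4] at h
  obtain ⟨hi, hr⟩ := hΔ
  obtain ⟨p, q⟩ := d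
  obtain ⟨x, y⟩ := s
  obtain ⟨r, t⟩ := Δ
  obtain ⟨b1, b2⟩ := a4
  obtain ⟨k1, k2⟩ := k
  simp only at hd hi hr
  have h1 := congrArg Zsqrtd.re h
  have h2 := congrArg Zsqrtd.im h
  have e1 : (4 : ZI).re = 4 := rfl
  have e2 : (4 : ZI).im = 0 := rfl
  simp only [pi1, im1, pow_succ, pow_zero, one_mul, Zsqrtd.re_add, Zsqrtd.im_add, Zsqrtd.re_sub,
    Zsqrtd.im_sub, re_mul', im_mul', e1, e2, Zsqrtd.re_one, Zsqrtd.im_one] at h1 h2
  obtain ⟨T, rfl⟩ : ∃ T, t = 2 * T := ⟨t / 2, by omega⟩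
  obtain ⟨R, rfl⟩ : ∃ R, r = 1 - 2 * T + 4 * R := ⟨(r - 1 + 2 * T) / 4, by omega⟩
  have key : ∀ p q x y T : ZMod 4, (p + q = 1 ∨ p + q = 3) →
      x * x - y * y - 2 * (x * y) = p * p * p - 3 * (p * q * q) + (p * (2 * T) + q * (1 - 2 * T)) →
      x * x - y * y + 2 * (x * y) = 3 * (p * p * q) - q * q * q - (p * (1 - 2 * T) - q * (2 * T)) →
      False := by decide
  refine key (p : ZMod 4) (q : ZMod 4) (x : ZMod 4) (y : ZMod 4) (T : ZMod 4) ?_ ?_ ?_
  · have hpq : (p + q) % 4 = 1 ∨ (p + q) % 4 = 3 := by omega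
    rcases hpq with h3 | h3
    · left
      have h4 : ((p + q : ℤ) : ZMod 4) = ((1 : ℤ) : ZMod 4) := by
        rw [ZMod.intCast_eq_intCast_iff_dvd_sub]
        omega
      simpa using h4
    · right
      have h4 : ((p + q : ℤ) : ZMod 4) = ((3 : ℤ) : ZMod 4) := by
        rw [ZMod.intCast_eq_intCast_iff_dvd_sub]
        omega
      simpa using h4
  · have h3 : x * x - y * y - 2 * (x * y) = p * p * p - 3 * (p * q * q) +
        (p * (2 * T) + q * (1 - 2 * T)) + 4 * (k1 + q * R + (p * p * p - 3 * (p * q * q)) * b1 -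
          (3 * (p * p * q) - q * q * q) * b2) := by
      linear_combination h1
    have h4 := cast4 h3
    push_cast at h4
    exact h4
  · have h3 : x * x - y * y + 2 * (x * y) = 3 * (p * p * q) - q * q * q -
        (p * (1 - 2 * T) - q * (2 * T)) + 4 * (k2 - p * R + (3 * (p * p * q) - q * q * q) * b1 +
          (p * p * p - 3 * (p * q * q)) * b2) := by
      linear_combination h2
    have h4 := cast4 h3
    push_cast at h4
    exact h4

section

variable {K : Type} [Field K] [NumberField K] (e : ZI ≃+* 𝓞 K)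

lemma exists_exp {L : Type} [Field L] (w : Valuation L (WithZero (Multiplicative ℤ))) {x : L}
    (hx : x ≠ 0) : ∃ n : ℤ, w x = WithZero.exp n :=
  ⟨WithZero.log (w x), (WithZero.exp_log ((Valuation.ne_zero_iff _).2 hx)).symm⟩

/-- evenness at `1 + i` -/
lemma not_pi1 {Δ d : ZI} (hΔ : prim Δ) (hd : Squarefree d) {b w : K} (hw : w ≠ 0)
    (hb : b = em0 e d * w ^ 2)
    (h : ∃ y m : (plc e pi1_prime).adicCompletion K, y ≠ 0 ∧ ph e pi1_prime b * y ^ 2 = m ∧
      S1 0 (ph e pi1_prime (em0 e (2 * Δ))) m) : ¬ pi1 ∣ d := by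
  rintro ⟨d1, hd1⟩
  have hodd : ¬ pi1 ∣ d1 := by
    rintro ⟨c', rfl⟩
    exact pi1_prime.not_isUnit (hd pi1 ⟨c', by rw [hd1]; ring⟩)
  obtain ⟨y, m, hy, hym, hm⟩ := h
  set V := vv (plc e pi1_prime) with hV
  set f := ph e pi1_prime with hf
  have hpw : f w ≠ 0 := (map_ne_zero _).2 hw
  set g := f w * y with hg
  have hg0 : g ≠ 0 := mul_ne_zero hpw hy
  have hl : V (f (em0 e pi1)) = WithZero.exp (-1 : ℤ) := by rw [hV, vv_coe, val_z]
  have hl0 : f (em0 e pi1) ≠ 0 := (map_ne_zero _).2 (em0_ne e pi1_prime.ne_zero)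
  have h2e : (2 : ZI) = pi1 ^ 2 * ⟨0, -1⟩ := two_eq_pi
  have hiu : V (f (em0 e ⟨0, -1⟩)) = 1 := by
    rw [hV, vv_coe]
    exact val_one e _ (by rw [odd_iff]; decide)
  have hΔ1 : V (f (em0 e Δ)) = 1 := by
    rw [hV, vv_coe]
    exact val_one e _ (pi1_prim hΔ)
  have hd11 : V (f (em0 e d1)) = 1 := by
    rw [hV, vv_coe]
    exact val_one e _ hodd
  have hD : V (f (em0 e (2 * Δ))) = WithZero.exp (-2 : ℤ) := by
    rw [h2e, map_mul, map_mul, map_mul, map_mul, map_mul, map_mul, map_pow, map_pow, map_pow, hl,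
      hiu, hΔ1, mul_one, mul_one, ← WithZero.exp_nsmul]
    congr 1
  obtain ⟨n, hn⟩ := exists_exp V hg0
  have hmg : m = f (em0 e d) * g ^ 2 := by
    rw [← hym, hb, hg, map_mul, map_pow]; ring
  have hdv : V (f (em0 e d)) = WithZero.exp (-1 : ℤ) := by
    rw [hd1, map_mul, map_mul, map_mul, hl, hd11, mul_one]
  have hmv : V m = WithZero.exp (-1 + 2 * n) := by
    rw [hmg, map_mul, map_pow, hdv, hn, ← WithZero.exp_nsmul, ← WithZero.exp_add]
    congr 1
  rcases hm with hm | hm | ⟨hm, Y, hY⟩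
  · rw [hm, map_one, ← WithZero.exp_zero] at hmv
    have := WithZero.exp_injective hmv
    omega
  · rw [hm, hD] at hmv
    have := WithZero.exp_injective hmv
    omega
  · rw [zero_mul, add_zero] at hY
    have hm2 : V (m ^ 2) = WithZero.exp (-2 + 4 * n) := by
      rw [map_pow, hmv, ← WithZero.exp_nsmul]
      congr 1
      simp
      ring
    have hY0 : m ^ 2 + f (em0 e (2 * Δ)) ≠ 0 → ∃ k : ℤ, V (m ^ 2 + f (em0 e (2 * Δ))) =
        WithZero.exp (2 * k + 1) := by
      intro h0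
      have hY0 : Y ≠ 0 := by
        rintro rfl
        rw [zero_pow two_ne_zero] at hY
        exact mul_ne_zero hm h0 hY.symm
      obtain ⟨r, hr⟩ := exists_exp V hY0
      obtain ⟨s, hs⟩ := exists_exp V h0
      have h1 := congrArg V hY
      rw [map_pow, map_mul, hr, hmv, hs, ← WithZero.exp_nsmul, ← WithZero.exp_add] at h1
      have h2 := WithZero.exp_injective h1
      simp at h2
      refine ⟨r - n, ?_⟩
      rw [hs]
      congr 1
      omega
    rcases lt_trichotomy n 0 with h1 | h1 | h1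
    · have h2 : V (m ^ 2 + f (em0 e (2 * Δ))) = WithZero.exp (-2 : ℤ) := by
        rw [Valuation.map_add_eq_of_lt_right, hD]
        rw [hm2, hD, WithZero.exp_lt_exp]
        omega
      obtain ⟨k, hk⟩ := hY0 (by
        intro h0
        rw [h0, map_zero] at h2
        exact WithZero.exp_ne_zero h2.symm)
      rw [h2] at hk
      have := WithZero.exp_injective hk
      omega
    · -- the unit case
      subst h1
      rw [WithZero.exp_zero] at hn
      set l := f (em0 e pi1) with hll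
      set t := Y / (g * l ^ 2) with ht
      have hkey : l * t ^ 2 = f (em0 e d1) * (f (em0 e d1) ^ 2 * g ^ 4 - f (em0 e im1) * f (em0 e Δ)) := by
        have e1 : f (em0 e (2 * Δ)) = - (l ^ 2 * f (em0 e im1) * f (em0 e Δ)) := by
          have : (2 * Δ : ZI) = -(pi1 ^ 2 * im1 * Δ) := by
            have h3 : (2 : ZI) = -(pi1 ^ 2 * im1) := by decide
            rw [h3]; ring
          rw [this, map_neg, map_neg, map_mul, map_mul, map_mul, map_mul, map_pow, map_pow]
        have e2 : f (em0 e d) = l * f (em0 e d1) := by rw [hd1, map_mul, map_mul]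
        rw [ht, div_pow, hY, hmg, e1, e2]
        field_simp
        ring
      have hiu' : V (f (em0 e im1)) = 1 := by
        rw [hV, vv_coe]
        exact val_one e _ (by rw [odd_iff]; decide)
      have htle : V t ≤ 1 := by
        by_cases ht0 : t = 0
        · rw [ht0, map_zero]; exact zero_le
        · obtain ⟨r, hr⟩ := exists_exp V ht0
          have h3 : V (l * t ^ 2) ≤ 1 := by
            rw [hkey, map_mul, hd11, one_mul]
            refine (Valuation.map_sub _ _ _).trans (max_le ?_ ?_)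
            · rw [map_mul, map_pow, map_pow, hd11, hn, one_pow, one_pow, one_mul]
            · rw [map_mul, hiu', hΔ1, mul_one]
          rw [map_mul, map_pow, hl, hr, ← WithZero.exp_nsmul, ← WithZero.exp_add,
            ← WithZero.exp_zero, WithZero.exp_le_exp] at h3
          simp at h3
          rw [hr, ← WithZero.exp_zero, WithZero.exp_le_exp]
          omega
      obtain ⟨a, ha⟩ := approx e pi1_prime g hn.le 4
      obtain ⟨s, hs⟩ := approx e pi1_prime t htle 4
      have hle1 : WithZero.exp (-((4 : ℕ) : ℤ)) < (1 : WithZero (Multiplicative ℤ)) := by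
        rw [← WithZero.exp_zero, WithZero.exp_lt_exp]; norm_num
      have hva : ∀ a' : ZI, V (f (em0 e a')) ≤ 1 := fun a' => by
        rw [hV, vv_coe]; exact val_le e _ a'
      have hao : ¬ pi1 ∣ a := by
        intro h3
        have h4 : V (f (em0 e a)) < 1 := by
          rw [hV, vv_coe]; exact (val_lt e _ _).2 h3
        have h5 : V g < 1 := by
          have : g = f (em0 e a) - (f (em0 e a) - g) := by ring
          rw [this]
          exact (Valuation.map_sub _ _ _).trans_lt (max_lt h4 (ha.trans_lt hle1))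
        rw [hn] at h5
        exact lt_irrefl _ h5
      have hdv4 : pi1 ^ 4 ∣ pi1 * s ^ 2 - d1 * (d1 ^ 2 * a ^ 4 - im1 * Δ) := by
        apply dvd_of_val e pi1_prime
        have e3 : f (em0 e (pi1 * s ^ 2 - d1 * (d1 ^ 2 * a ^ 4 - im1 * Δ))) =
            l * ((f (em0 e s) - t) * (f (em0 e s) + t)) - f (em0 e d1) ^ 3 *
              ((f (em0 e a) - g) * ((f (em0 e a) + g) * (f (em0 e a) ^ 2 + g ^ 2))) := by
          simp only [map_sub, map_mul, map_pow]
          linear_combination hkey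
        change V (f (em0 e (pi1 * s ^ 2 - d1 * (d1 ^ 2 * a ^ 4 - im1 * Δ)))) ≤ _
        rw [e3]
        refine (Valuation.map_sub _ _ _).trans (max_le ?_ ?_)
        · rw [map_mul, map_mul]
          refine (mul_le_of_le_one_left zero_le (hva pi1)).trans ?_
          refine (mul_le_of_le_one_right zero_le ?_).trans hs
          exact (Valuation.map_add _ _ _).trans (max_le (hva s) htle)
        · rw [map_mul, map_mul, map_pow, hd11, one_pow, one_mul]
          refine (mul_le_of_le_one_right zero_le ?_).trans ha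
          rw [map_mul]
          refine mul_le_one' ((Valuation.map_add _ _ _).trans (max_le (hva a) hn.le)) ?_
          refine (Valuation.map_add _ _ _).trans (max_le ?_ ?_)
          · rw [map_pow]; exact pow_le_one₀ zero_le (hva a)
          · rw [map_pow]; exact pow_le_one₀ zero_le hn.le
      obtain ⟨k, hk⟩ := hdv4
      have e4 : (pi1 ^ 4 : ZI) = -4 := by decide
      refine no_two (d := d1) (a := a) (s := s) (Δ := Δ) (k := -k) ((odd_iff _).1 hodd)
        ((odd_iff _).1 hao) hΔ ?_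
      rw [e4] at hk
      linear_combination hk
    · have h2 : V (m ^ 2 + f (em0 e (2 * Δ))) = WithZero.exp (-2 + 4 * n) := by
        rw [Valuation.map_add_eq_of_lt_left, hm2]
        rw [hm2, hD, WithZero.exp_lt_exp]
        omega
      obtain ⟨k, hk⟩ := hY0 (by
        intro h0
        rw [h0, map_zero] at h2
        exact WithZero.exp_ne_zero h2.symm)
      rw [h2] at hk
      have := WithZero.exp_injective hk
      omega

end

end Pool.Agent.D0H49.Q4
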